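import Pool.Agent.Lib.MP_144d21_co.XU.Iface

/-!
# MP_144d21_co, project XU, modules COEF and TRIC
-/

set_option autoImplicit false

namespace Pool.Agent.Xu.H94

open Finset Polynomial

variable {V : Type} [Fintype V] [DecidableEq V]

theorem mem_edg {G : SimpleGraph V} {S : Finset V} {u v : V} (hu : u ∈ S) (hv : v ∈ S)
    (h : G.Adj u v) : s(u, v) ∈ edg G S := by
  classical
  unfold edg
  rw [mem_filter]
  refine ⟨mem_univ _, h, ?_⟩
  intro x hx
  rcases Sym2.mem_iff.1 hx with rfl | rfl
  · exact hu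
  · exact hv

theorem exists_adj {G : SimpleGraph V} {S : Finset V} (h : ne G S ≠ 0) :
    ∃ v ∈ S, ∃ w ∈ S, G.Adj v w := by
  classical
  unfold ne at h
  obtain ⟨e, he⟩ := Finset.card_ne_zero.1 h
  unfold edg at he
  rw [mem_filter] at he
  obtain ⟨-, he1, he2⟩ := he
  induction e using Sym2.ind with
  | _ v w =>
    exact ⟨v, he2 v (Sym2.mem_mk_left v w), w, he2 w (Sym2.mem_mk_right v w), he1⟩

theorem chi_of_ne_zero {G : SimpleGraph V} {S : Finset V} (h : ne G S = 0) :
    chi G S = X ^ S.card := by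
  classical
  symm
  apply IsChi.eq_chi
  intro q
  have hno : ∀ u ∈ S, ∀ v ∈ S, ¬ G.Adj u v := by
    intro u hu v hv ha
    have h1 := mem_edg hu hv ha
    have h2 : edg G S = ∅ := Finset.card_eq_zero.1 h
    rw [h2] at h1
    exact Finset.notMem_empty _ h1
  have h1 : cols G S q = Fintype.piFinset fun v => if v ∈ S then range q else {0} := by
    unfold cols
    rw [Finset.filter_eq_self]
    intro c _ u hu v hv ha
    exact absurd ha (hno u hu v hv)
  have h2 : (cols G S q).card = q ^ S.card := by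
    rw [h1, Fintype.card_piFinset]
    have h3 : ∀ v : V, (if v ∈ S then range q else ({0} : Finset ℕ)).card =
        if v ∈ S then q else 1 := by
      intro v
      split_ifs
      · exact Finset.card_range q
      · exact Finset.card_singleton 0
    rw [Finset.prod_congr rfl fun v _ => h3 v, Finset.prod_ite_mem, Finset.univ_inter,
      Finset.prod_const]
  rw [h2]
  simp

theorem coef_aux (h1 : ChidcS) (h2 : NecntS) (n : ℕ) : ∀ (G : SimpleGraph V) (S : Finset V),
    ne G S = n → (chi G S).Monic ∧ (chi G S).natDegree = S.card ∧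
      (1 ≤ S.card → (chi G S).coeff (S.card - 1) = - (ne G S : ℤ)) := by
  induction n using Nat.strong_induction_on with
  | _ n ih =>
  intro G S hn
  by_cases h0 : ne G S = 0
  · rw [chi_of_ne_zero h0, h0]
    refine ⟨monic_X_pow _, natDegree_X_pow _, ?_⟩
    intro hS
    rw [coeff_X_pow, if_neg (by omega)]
    simp
  · obtain ⟨v, hv, w, hw, ha⟩ := exists_adj h0
    obtain ⟨e1, e2⟩ := (h2 V G S).1 v hv w hw ha
    have hd := ih (ne (del G v w) S) (by omega) (del G v w) S rfl
    have hc := ih (ne (con G v w) (S.erase v)) (by omega) (con G v w) (S.erase v) rfl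
    obtain ⟨d1, d2, d3⟩ := hd
    obtain ⟨c1, c2, -⟩ := hc
    have hcard : (S.erase v).card + 1 = S.card := Finset.card_erase_add_one hv
    have hchi : chi G S = chi (del G v w) S - chi (con G v w) (S.erase v) :=
      eq_sub_of_add_eq (h1 V G S v w hv hw ha).symm
    have hdeg : (chi (con G v w) (S.erase v)).degree < (chi (del G v w) S).degree := by
      rw [degree_eq_natDegree c1.ne_zero, degree_eq_natDegree d1.ne_zero, c2, d2]
      exact_mod_cast (by omega : (S.erase v).card < S.card)
    refine ⟨?_, ?_, ?_⟩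
    · rw [hchi]
      exact d1.sub_of_left hdeg
    · rw [hchi, natDegree_sub_eq_left_of_natDegree_lt (by rw [c2, d2]; omega), d2]
    · intro hS
      rw [hchi, coeff_sub, d3 hS]
      have h5 : S.card - 1 = (chi (con G v w) (S.erase v)).natDegree := by rw [c2]; omega
      rw [h5, coeff_natDegree, c1.leadingCoeff]
      have h6 : (ne (del G v w) S : ℤ) + 1 = ne G S := by exact_mod_cast e1
      linarith

theorem coef (h1 : ChidcS) (h2 : NecntS) : CoefS := by
  intro V _ _ G S
  exact coef_aux h1 h2 (ne G S) G S rfl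

theorem tric_aux (h1 : ChidcS) (h2 : CoefS) (h3 : NecntS) (n : ℕ) :
    ∀ (G : SimpleGraph V) (S : Finset V), ne G S = n → 2 ≤ S.card →
    (∀ x ∈ S, ∀ y ∈ S, ∀ z ∈ S, ¬ (G.Adj x y ∧ G.Adj y z ∧ G.Adj x z)) →
    2 * (chi G S).coeff (S.card - 2) = (ne G S : ℤ) * ((ne G S : ℤ) - 1) := by
  induction n using Nat.strong_induction_on with
  | _ n ih =>
  intro G S hn hS htri
  by_cases h0 : ne G S = 0
  · rw [chi_of_ne_zero h0, h0, coeff_X_pow, if_neg (by omega)]
    simp
  · obtain ⟨v, hv, w, hw, ha⟩ := exists_adj h0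
    obtain ⟨e1, e2⟩ := (h3 V G S).1 v hv w hw ha
    have hcommon : nb G S v ∩ nb G S w = ∅ := by
      rw [Finset.eq_empty_iff_forall_notMem]
      intro x hx
      rw [mem_inter, mem_nb, mem_nb] at hx
      exact htri v hv w hw x hx.1.1 ⟨ha, hx.2.2, hx.1.2⟩
    rw [hcommon, Finset.card_empty] at e2
    have hd := ih (ne (del G v w) S) (by omega) (del G v w) S rfl hS (by
      intro x hx y hy z hz hxyz
      exact htri x hx y hy z hz ⟨hxyz.1.1, hxyz.2.1.1, hxyz.2.2.1⟩)
    have hcard : (S.erase v).card + 1 = S.card := Finset.card_erase_add_one hv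
    have hc := (h2 V (con G v w) (S.erase v)).2.2 (by omega)
    have hchi : chi G S = chi (del G v w) S - chi (con G v w) (S.erase v) :=
      eq_sub_of_add_eq (h1 V G S v w hv hw ha).symm
    rw [hchi, coeff_sub, mul_sub, hd]
    have h5 : S.card - 2 = (S.erase v).card - 1 := by omega
    rw [h5, hc]
    have h6 : (ne (del G v w) S : ℤ) = ne G S - 1 := by
      have : (ne (del G v w) S : ℤ) + 1 = ne G S := by exact_mod_cast e1
      linarith
    have h7 : (ne (con G v w) (S.erase v) : ℤ) = ne G S - 1 := by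
      have : (ne (con G v w) (S.erase v) : ℤ) + 1 + 0 = ne G S := by exact_mod_cast e2
      linarith
    rw [h6, h7]
    ring

theorem tric (h1 : ChidcS) (h2 : CoefS) (h3 : NecntS) : TricS := by
  intro V _ _ G S hS htri
  exact tric_aux h1 h2 h3 (ne G S) G S rfl hS htri

end Pool.Agent.Xu.H94
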